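import Pool.Agent.H221Z.KRW5

set_option autoImplicit false

open Filter Topology Pool.Agent.H221Z.KRW

/-- For the killed random walk on `ℤ²` with the `ℓ¹` norm and a polynomially decaying prefactor there
is a direction `s` in which the inverse correlation length fails to be analytic at some point
strictly between the saturation threshold and `lam_exp`. -/
theorem Pool.Agent.Results.MP_07406a_pr.ANotAnalytic.result :
    ∃ (N : (Fin 2 → ℝ) → ℝ) (ψ : Lat 2 → ℝ), (∀ u, N u = |u 0| + |u 1|) ∧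
    (∃ c : ℝ, ∀ z, ψ z = c / ((1 + |(z 0 : ℝ)|) ^ 3 * (1 + |(z 1 : ℝ)|) ^ 3)) ∧ Admissible N ψ ∧
    lamC N ψ = 1 ∧ lamExp N ψ = 1 ∧
    (∀ lam : ℝ, 0 < lam → lam < lamC N ψ → ∀ u : Fin 2 → ℝ,
      (∀ n : ℕ, 0 < G N ψ lam 0 (latPt u n) ∧ G N ψ lam 0 (latPt u n) < ⊤) ∧
      Tendsto (rate N ψ lam u) atTop (𝓝 (nu N ψ u lam))) ∧
    ∃ s ∈ Sph 2, 0 < lamSat N ψ s ∧
      ∃ lam ∈ Set.Ioo (lamSat N ψ s) (lamExp N ψ), ¬ AnalyticAt ℝ (nu N ψ s) lam :=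
  main
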